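import Pool.Agent.H7.KC.Stmts
import Pool.Agent.H81.JB.WGG

/-!
Board `kc15`, row WGJ: nearly all vertices are clean (after the row WGG of `jb14`, helper81).
-/

set_option autoImplicit false

open Finset

namespace Pool.KC7

open Pool.Agent.H23.KT Pool.Agent.H46.KW Pool.KQ Pool.GT7 Pool.GU7 Pool.HZ7 Pool.IA7

namespace H27WGJ

/-- the bound of the weights -/
theorem wbound {V : Type} [DecidableEq V] (G : SimpleGraph V) (p w r a : ℕ) (W : Finset V)
    (ha : 1 ≤ a) (hrp : r ≤ p) (hpt : 0 ≤ pt p w r) (hCB : CB G W (p + 3))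
    (hW : W.card ≤ (p + 3) * a + r) :
    Mt p w r a * ∑ L ∈ clq G W (p + 3), min (r : ℝ) (XX G p r a W L) ≤
      2 ^ (p + 3) * (c1 p w * pt p w r) * r * (a : ℝ) ^ (w + 1) := by
  have haR : (1 : ℝ) ≤ a := by exact_mod_cast ha
  have hM : 0 ≤ Mt p w r a := by unfold Mt c1; positivity
  have h1 : kc G W (p + 3) ≤ (a + 1) ^ (p + 3) := by
    have h1 := zyk (G := G) (p + 2) W hCB
    have h2 : W.card ≤ (p + 3) * (a + 1) := by
      have : (p + 3) * (a + 1) = (p + 3) * a + (p + 3) := by ring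
      omega
    have h3 := bal_mono (q := p + 3) (by omega) h2
    rw [bal_mul_self (by omega)] at h3
    exact h1.trans h3
  have h2 : (kc G W (p + 3) : ℝ) ≤ (2 * (a : ℝ)) ^ (p + 3) := by
    have h3 : (kc G W (p + 3) : ℝ) ≤ ((a : ℝ) + 1) ^ (p + 3) := by exact_mod_cast h1
    exact h3.trans (pow_le_pow_left₀ (by positivity) (by linarith) _)
  have h3 : ∑ L ∈ clq G W (p + 3), min (r : ℝ) (XX G p r a W L) ≤
      (r : ℝ) * (2 * (a : ℝ)) ^ (p + 3) := by
    calc ∑ L ∈ clq G W (p + 3), min (r : ℝ) (XX G p r a W L)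
        ≤ ∑ L ∈ clq G W (p + 3), (r : ℝ) := Finset.sum_le_sum (fun L _ => min_le_left _ _)
      _ = (r : ℝ) * (kc G W (p + 3) : ℝ) := by
          rw [sum_const, nsmul_eq_mul, ← kc_eq, mul_comm]
      _ ≤ (r : ℝ) * (2 * (a : ℝ)) ^ (p + 3) := mul_le_mul_of_nonneg_left h2 (by positivity)
  calc Mt p w r a * ∑ L ∈ clq G W (p + 3), min (r : ℝ) (XX G p r a W L)
      ≤ Mt p w r a * ((r : ℝ) * (2 * (a : ℝ)) ^ (p + 3)) := mul_le_mul_of_nonneg_left h3 hM
    _ = 2 ^ (p + 3) * (c1 p w * pt p w r) * r * (a : ℝ) ^ (w + 1) := by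
        unfold Mt
        have hne : ((a : ℝ)) ^ (p + 3) ≠ 0 := by positivity
        rw [mul_pow]
        field_simp

end H27WGJ

open H27WGJ Pool.JB7.H81WGG in
open Classical in
theorem wgj_thm (hGCJ : GCJStmt) (hWLJ : WLJStmt) (hBUJ : BUJStmt) (hGGJ : GGJStmt)
    (hPHI : PHI0Stmt) : WGJStmt := by
  intro p w r hP
  obtain ⟨hPZ, hph0, hph1, -⟩ := hGCJ p w r hP
  have hr1 : 1 ≤ r := by
    by_contra h0
    have h00 : r = 0 := by omega
    have := hP.s1
    rw [h00] at this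
    omega
  have hP0 : Pr0 p 0 r := ⟨Nat.zero_le _, hr1, hP.rp⟩
  have hc10 : 0 ≤ c1 p w := by unfold c1; positivity
  have hlz : 0 ≤ ltt p w r := by
    unfold ltt
    have h1 : (r : ℝ) ≤ p := by exact_mod_cast hP.rp
    refine div_nonneg (mul_nonneg (by positivity) (by linarith)) (by positivity)
  obtain ⟨c, hc, hc1, hW1⟩ := hWLJ p w r hP
  have hA0 : 0 ≤ 2 ^ (p + 3) * (c1 p w * pt p w r) * r := by positivity
  obtain ⟨C₂, hC₂, eB, heB, heB1, hB⟩ := hBUJ p w r hP
    (2 ^ (p + 3) * (c1 p w * pt p w r) * r + ltt p w r + c + 1) (by linarith)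
  obtain ⟨C, C₁, hC, hW2⟩ := hW1 C₂ hC₂
  obtain ⟨eG, heG, heG1, hG1⟩ := hGGJ p w r hP
  refine ⟨C, hC, ?_⟩
  intro ε e K hε he he8
  obtain ⟨e', he'0, he'e, he'B, he'G⟩ : ∃ e' : ℝ, 0 < e' ∧ e' ≤ e ∧ e' ≤ eB ∧ e' ≤ eG :=
    ⟨min e (min eB eG), lt_min he (lt_min heB heG), min_le_left _ _,
      (min_le_right _ _).trans (min_le_left _ _), (min_le_right _ _).trans (min_le_right _ _)⟩
  have hε' : 0 < c * ε / 4 := by positivity
  obtain ⟨aW, hW⟩ := hW2 (c * ε / 4) e' hε' he'0 (he'e.trans he8)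
  obtain ⟨aB, hB⟩ := hB C
  obtain ⟨aG, hG2⟩ := hG1 C C₁
  refine ⟨aW + aB + aG + ⌈4 * |K| / (c * ε)⌉₊ + 1, ?_⟩
  intro a ha V _ _ G hG hsum
  have ha1 : 1 ≤ a := by omega
  have hapos : (0 : ℝ) < a := by
    have : 0 < a := by omega
    exact_mod_cast this
  have haK : 4 * |K| / (c * ε) ≤ a := by
    have h2 : 4 * |K| / (c * ε) ≤ (⌈4 * |K| / (c * ε)⌉₊ : ℝ) := Nat.le_ceil _
    have h3 : ((⌈4 * |K| / (c * ε)⌉₊ : ℕ) : ℝ) ≤ a := by
      have : ⌈4 * |K| / (c * ε)⌉₊ ≤ a := by omega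
      exact_mod_cast this
    linarith
  have hK : |K| ≤ c * ε / 4 * a := by
    rw [div_le_iff₀ (by positivity)] at haK
    linarith
  set A : ℝ := (a : ℝ) ^ (w + 1) with hA
  have hApos : 0 < A := by rw [hA]; positivity
  have hKA : K * (a : ℝ) ^ w ≤ c * ε / 4 * A := by
    have h0 : K ≤ c * ε / 4 * a := (le_abs_self K).trans hK
    have h1 : K * (a : ℝ) ^ w ≤ c * ε / 4 * a * (a : ℝ) ^ w :=
      mul_le_mul_of_nonneg_right h0 (by positivity)
    have h2 : c * ε / 4 * a * (a : ℝ) ^ w = c * ε / 4 * A := by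
      rw [hA, pow_succ]; ring
    rwa [h2] at h1
  have hM0 : 0 ≤ Mt p w r a := by unfold Mt; positivity
  -- the good vertices
  set Gd : Finset V := univ.filter (fun v => df G p w r a (nb G univ v) < C₂ * A) with hGd
  have hgd : ∀ v ∈ Gd, df G p w r a (nb G univ v) < C₂ * A := by
    intro v hv
    exact (mem_filter.1 hv).2
  have hngd : ∀ v, v ∉ Gd → C₂ * A ≤ df G p w r a (nb G univ v) := by
    intro v hv
    by_contra hcon
    rw [not_le] at hcon
    exact hv (mem_filter.2 ⟨mem_univ v, hcon⟩)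
  have hstr : ∀ v, v ∈ Gd → ∃ (P : Fin (p + 3) → Finset V) (U : Finset V),
      Str G p a e' C (nb G univ v) P U ∧
      a ^ (p + 4) ≤ (a + C₁) * kc G (nb G univ v) (p + 3) ∧
      Mt p w r a * ∑ L ∈ clq G (nb G univ v) (p + 3), min (r : ℝ) (XX G p r a (nb G univ v) L) -
          Mt p w r a * ((r : ℝ) / ((p : ℝ) + 4)) * kc G (nb G univ v) (p + 3) +
          ltt p w r * A +
          (if U = ∅ ∧ (nb G univ v).card = (p + 3) * a + r then 0 else c * A) ≤
        df G p w r a (nb G univ v) + ∑ z ∈ U, ndj G p w r a (un P) z + c * ε / 4 * A := by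
    intro v hv
    exact hW a (by omega) G hG v (hgd v hv)
  choose! P U hS using hstr
  have hUsub : ∀ v ∈ Gd, ∀ z ∈ U v, G.Adj v z := by
    intro v hv z hz
    have : z ∈ nb G univ v := ((hS v hv).1.cov z).2 (Or.inl hz)
    exact ((mem_nb G).1 this).2
  set Cln : V → Prop := fun v => v ∈ Gd ∧ U v = ∅ ∧ (nb G univ v).card = (p + 3) * a + r with hCln
  have hmain := sum_le Gd U
    (fun v => Mt p w r a * ∑ L ∈ clq G (nb G univ v) (p + 3),
        min (r : ℝ) (XX G p r a (nb G univ v) L) -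
      Mt p w r a * ((r : ℝ) / ((p : ℝ) + 4)) * kc G (nb G univ v) (p + 3) + ltt p w r * A +
      (if Cln v then 0 else c * A) - c * ε / 4 * A)
    (fun v => df G p w r a (nb G univ v)) (fun v z => ndj G p w r a (un (P v)) z) ?_ ?_ ?_
  rotate_left
  · intro v hv
    have h1 := (hS v hv).2.2
    have h2 : (if Cln v then 0 else c * A) =
        (if U v = ∅ ∧ (nb G univ v).card = (p + 3) * a + r then 0 else c * A) := by
      by_cases h : U v = ∅ ∧ (nb G univ v).card = (p + 3) * a + r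
      · rw [if_pos h, if_pos (show Cln v from ⟨hv, h⟩)]
      · rw [if_neg h, if_neg (fun h' : Cln v => h h'.2)]
    show _ - _ ≤ df G p w r a (nb G univ v) + ∑ z ∈ U v, ndj G p w r a (un (P v)) z
    rw [h2]
    linarith
  · intro v hv z hzU hz
    exact hG2 a (by omega) G hG e' he'0.le he'G v z (P v) (P z) (U v) (U z) (hS v hv).1
      (hS z hz).1 hzU (hS z hz).2.1
  · intro z hz
    have hb := hB a (by omega) G hG e' he'0.le he'B z (Gd.filter (fun v => z ∈ U v)) P U
      (by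
        intro v hv
        obtain ⟨hv1, hv2⟩ := mem_filter.1 hv
        exact (mem_nb G).2 ⟨mem_univ v, (hUsub v hv1 z hv2).symm⟩)
      (by
        intro v hv
        obtain ⟨hv1, hv2⟩ := mem_filter.1 hv
        exact ⟨(hS v hv1).1, hv2⟩)
      (hngd z hz)
    have hwb := wbound G p w r a (nb G univ z) ha1 hP.rp hph0.le (hG.cb.nb (mem_univ z)) (hG.deg z)
    have h3 : 0 ≤ Mt p w r a * ((r : ℝ) / ((p : ℝ) + 4)) * kc G (nb G univ z) (p + 3) := by
      positivity
    have h4 : (if Cln z then 0 else c * A) ≤ c * A := by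
      split_ifs
      · positivity
      · exact le_rfl
    have h5 : 0 ≤ c * ε / 4 * A := by positivity
    show _ ≤ df G p w r a (nb G univ z) - (_ - _)
    have h6 : (2 ^ (p + 3) * (c1 p w * pt p w r) * r + ltt p w r + c + 1) * A =
        2 ^ (p + 3) * (c1 p w * pt p w r) * r * A + ltt p w r * A + c * A + A := by ring
    rw [← hA] at hb hwb
    rw [h6] at hb
    linarith
  -- sum over all vertices
  have hex := H14GLO.exch (G := G) (p + 3) (fun v L => min (r : ℝ) (XX G p r a (nb G univ v) L))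
  have hphi := hPHI G p 0 r a hP0 hG.cb hG.deg
  have h4 : (r : ℝ) * kc G univ (p + 4) ≤ ∑ K ∈ clq G univ (p + 4), ∑ v ∈ K,
      min (r : ℝ) (XX G p r a (nb G univ v) (K.erase v)) := by
    rw [kc_eq, mul_comm, ← nsmul_eq_mul]
    exact card_nsmul_le_sum _ _ _ hphi
  have h5 := H88WSG.sum_kc G (p + 3)
  have h6 := hmain
  rw [sum_sub_distrib, sum_add_distrib, sum_add_distrib, sum_sub_distrib, ← mul_sum, ← mul_sum,
    sum_const, sum_const, hex, h5, card_univ, nsmul_eq_mul, nsmul_eq_mul] at h6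
  have h7 := mul_le_mul_of_nonneg_left h4 hM0
  have h10 : Mt p w r a * ((r : ℝ) / ((p : ℝ) + 4)) * ((((p + 3 : ℕ) : ℝ) + 1) *
      kc G univ (p + 3 + 1)) = Mt p w r a * (r * kc G univ (p + 4)) := by
    have hp4 : ((p : ℝ) + 4) ≠ 0 := by positivity
    push_cast
    field_simp
    ring
  rw [h10] at h6
  have h11 : Mt p w r a * ∑ K ∈ clq G univ (p + 3 + 1), ∑ v ∈ K,
      min (r : ℝ) (XX G p r a (nb G univ v) (K.erase v)) =
      Mt p w r a * ∑ K ∈ clq G univ (p + 4), ∑ v ∈ K,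
      min (r : ℝ) (XX G p r a (nb G univ v) (K.erase v)) := rfl
  rw [h11] at h6
  have h12 : ∑ v, (if Cln v then 0 else c * A) =
      c * A * ((univ.filter (fun v => ¬ Cln v)).card : ℝ) := by
    rw [sum_ite, sum_const_zero, zero_add, sum_const, nsmul_eq_mul, mul_comm]
  rw [h12] at h6
  refine ⟨univ.filter (fun v => Cln v), P, ?_, ?_⟩
  · intro v hv
    obtain ⟨hv1, hv2, hv3⟩ := (mem_filter.1 hv).2
    refine ⟨hv3, ?_⟩
    have h := (hS v hv1).1
    rw [hv2] at h
    exact str_mono h he'e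
  · have hcomp : univ \ univ.filter (fun v => Cln v) = univ.filter (fun v => ¬ Cln v) := by
      ext v
      simp
    rw [hcomp]
    set M : ℝ := ((univ.filter (fun v => ¬ Cln v)).card : ℝ) with hM
    set m : ℝ := (Fintype.card V : ℝ) with hm
    have hm0 : 0 ≤ m := by positivity
    have hKm : K * (a : ℝ) ^ w * m ≤ c * ε / 4 * A * m :=
      mul_le_mul_of_nonneg_right hKA hm0
    have hsum' : ∑ v, df G p w r a (nb G univ v) ≤ ltt p w r * A * m + K * (a : ℝ) ^ w * m := by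
      rw [← add_mul]; exact hsum
    have h9 : c * A * M ≤ K * (a : ℝ) ^ w * m + c * ε / 4 * A * m := by
      nlinarith [h6, h7, hsum']
    have h14 : c * ε / 4 * A * m + c * ε / 4 * A * m ≤ c * A * (ε * m) := by
      have : 0 ≤ c * ε * A * m := by positivity
      nlinarith
    have h15 : (c * A) * M ≤ (c * A) * (ε * m) := by linarith
    exact le_of_mul_le_mul_left h15 (by positivity)

end Pool.KC7
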